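import Pool.Agent.Q35.TT.Stm3
import Pool.Agent.Q275.TT.Nsh

/-!
# The height of the squares of the partial derivatives of a smooth form of multidegree (4,…,4)
(job NSN of project TT of helper35; after the proof of helper275 for two factors)
-/

set_option autoImplicit false

open Pool.Agent.Q35.TT MvPolynomial Height

namespace Pool.Agent.Q192.TT

/-! ### Ring homomorphisms -/

section hom

variable {R S : Type} [CommRing R] [CommRing S] {n : ℕ}

theorem mo_map (φ : R →+* S) (m : Fin n →₀ ℕ) (x : Fin n → Fin 2 → R) (i : Fin n) :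
    φ (mo m x i) = mo m (fun j b => φ (x j b)) i := by
  unfold mo
  rw [map_prod]
  simp only [map_mul, map_pow]

theorem lc_map (φ : R →+* S) (f : MvPolynomial (Fin n) R) (x : Fin n → Fin 2 → R) (i : Fin n)
    (k : Fin 5) : φ (lc f x i k) = lc (map φ f) (fun j b => φ (x j b)) i k := by
  classical
  unfold lc
  rw [map_sum]
  have hsub : (map φ f).support.filter (fun m => m i = (k : ℕ)) ⊆
      f.support.filter (fun m => m i = (k : ℕ)) :=
    Finset.filter_subset_filter _ (support_map_subset φ f)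
  have h1 : ∑ m ∈ (map φ f).support.filter (fun m => m i = (k : ℕ)), (map φ f).coeff m *
      mo m (fun j b => φ (x j b)) i = ∑ m ∈ f.support.filter (fun m => m i = (k : ℕ)),
      (map φ f).coeff m * mo m (fun j b => φ (x j b)) i := by
    refine Finset.sum_subset hsub fun m hm hm' => ?_
    have h0 : (map φ f).coeff m = 0 := by
      by_contra h
      exact hm' (Finset.mem_filter.2 ⟨mem_support_iff.2 h, (Finset.mem_filter.1 hm).2⟩)
    rw [h0, zero_mul]
  rw [h1]
  refine Finset.sum_congr rfl fun m _ => ?_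
  rw [map_mul, mo_map, coeff_map]

/-- the squares of the products of the partial derivatives with coordinates, at all points -/
noncomputable def ZG (f : MvPolynomial (Fin n) R) (x : Fin n → Fin 2 → R)
    (k : Fin n × Fin 2 × Fin 2) : R :=
  bd (lc f x k.1) (x k.1) k.2.1 ^ 2 * x k.1 k.2.2 ^ 2

theorem ZG_map (φ : R →+* S) (f : MvPolynomial (Fin n) R) (x : Fin n → Fin 2 → R)
    (k : Fin n × Fin 2 × Fin 2) : φ (ZG f x k) = ZG (map φ f) (fun j b => φ (x j b)) k := by
  unfold ZG
  rw [map_mul, map_pow, map_pow, Pool.Agent.Q275.TT.bd_map]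
  simp only [lc_map]

end hom

/-! ### Multihomogeneous polynomials -/

section wh

variable {σ M : Type} [AddCommMonoid M] {w : σ → M} {K : Type} [Field K]

theorem sm_hom {k a : MvPolynomial σ K} {m : M}
    (hk : IsWeightedHomogeneous w k (0 : M)) (ha : IsWeightedHomogeneous w a m) :
    IsWeightedHomogeneous w (k * a) m := by
  have := hk.mul ha
  rwa [zero_add] at this

theorem nat_hom (n : ℕ) : IsWeightedHomogeneous w ((n : MvPolynomial σ K)) (0 : M) := by
  rw [← map_natCast (C : K →+* MvPolynomial σ K)]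
  exact isWeightedHomogeneous_C w _

theorem bd_hom (a : Fin 5 → MvPolynomial σ K) (x : Fin 2 → MvPolynomial σ K) (m n : M)
    (ha : ∀ i, IsWeightedHomogeneous w (a i) m) (hx : ∀ i, IsWeightedHomogeneous w (x i) n)
    (k : Fin 2) : IsWeightedHomogeneous w (bd a x k) (m + 3 • n) := by
  have e1 : 3 • n = 2 • n + 1 • n := by rw [← add_smul]
  have e2 : 3 • n = 1 • n + 2 • n := by rw [← add_smul]
  have h1 (i : Fin 2) : IsWeightedHomogeneous w (x i) (1 • n) := by
    rw [one_smul]; exact hx i
  have p1 : IsWeightedHomogeneous w (x 0 ^ 2 * x 1) (3 • n) := by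
    rw [e1]; exact ((hx 0).pow 2).mul (h1 1)
  have p2 : IsWeightedHomogeneous w (x 0 * x 1 ^ 2) (3 • n) := by
    rw [e2]; exact (h1 0).mul ((hx 1).pow 2)
  have two_hom : IsWeightedHomogeneous w ((2 : MvPolynomial σ K)) (0 : M) := by
    exact_mod_cast nat_hom (K := K) (w := w) 2
  have three_hom : IsWeightedHomogeneous w ((3 : MvPolynomial σ K)) (0 : M) := by
    exact_mod_cast nat_hom (K := K) (w := w) 3
  have four_hom : IsWeightedHomogeneous w ((4 : MvPolynomial σ K)) (0 : M) := by
    exact_mod_cast nat_hom (K := K) (w := w) 4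
  fin_cases k
  · change IsWeightedHomogeneous w (4 * a 0 * x 0 ^ 3 + 3 * a 1 * (x 0 ^ 2 * x 1) +
      2 * a 2 * (x 0 * x 1 ^ 2) + a 3 * x 1 ^ 3) (m + 3 • n)
    refine IsWeightedHomogeneous.add (IsWeightedHomogeneous.add (IsWeightedHomogeneous.add
      ?_ ?_) ?_) ?_
    · exact (sm_hom four_hom (ha 0)).mul ((hx 0).pow 3)
    · exact (sm_hom three_hom (ha 1)).mul p1
    · exact (sm_hom two_hom (ha 2)).mul p2
    · exact (ha 3).mul ((hx 1).pow 3)
  · change IsWeightedHomogeneous w (a 1 * x 0 ^ 3 + 2 * a 2 * (x 0 ^ 2 * x 1) +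
      3 * a 3 * (x 0 * x 1 ^ 2) + 4 * a 4 * x 1 ^ 3) (m + 3 • n)
    refine IsWeightedHomogeneous.add (IsWeightedHomogeneous.add (IsWeightedHomogeneous.add
      ?_ ?_) ?_) ?_
    · exact (ha 1).mul ((hx 0).pow 3)
    · exact (sm_hom two_hom (ha 2)).mul p1
    · exact (sm_hom three_hom (ha 3)).mul p2
    · exact (sm_hom four_hom (ha 4)).mul ((hx 1).pow 3)

end wh

variable {K : Type} [Field K] {n : ℕ}

/-- The weights. -/
def wt (n : ℕ) : Fin n × Fin 2 → (Fin n → ℕ) := fun p => Pi.single p.1 1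

/-- The generic point. -/
noncomputable def xv (K : Type) [Field K] (n : ℕ) :
    Fin n → Fin 2 → MvPolynomial (Fin n × Fin 2) K := fun j b => X (j, b)

theorem xv_hom (j : Fin n) (b : Fin 2) :
    IsWeightedHomogeneous (wt n) (xv K n j b) (Pi.single j 1) :=
  isWeightedHomogeneous_X K (wt n) (j, b)

/-- The degree without the block `i`. -/
def dg (n : ℕ) (i : Fin n) : Fin n → ℕ := ∑ j ∈ Finset.univ.erase i, 4 • Pi.single j 1

theorem mo_hom (m : Fin n →₀ ℕ) (hm : ∀ j, m j ≤ 4) (i : Fin n) :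
    IsWeightedHomogeneous (wt n) (mo m (xv K n) i) (dg n i) := by
  unfold mo dg
  refine IsWeightedHomogeneous.prod _ _ _ fun j _ => ?_
  have e : 4 • (Pi.single j 1 : Fin n → ℕ) = (4 - m j) • Pi.single j 1 + m j • Pi.single j 1 := by
    rw [← add_smul, Nat.sub_add_cancel (hm j)]
  rw [e]
  exact ((xv_hom j 0).pow _).mul ((xv_hom j 1).pow _)

theorem lc_hom (f : MvPolynomial (Fin n) K) (hf : ∀ j, f.degreeOf j ≤ 4) (i : Fin n) (k : Fin 5) :
    IsWeightedHomogeneous (wt n) (lc (map C f) (xv K n) i k) (dg n i) := by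
  unfold lc
  refine IsWeightedHomogeneous.sum _ _ _ fun m hm => ?_
  have hm1 : m ∈ f.support := support_map_subset _ _ (Finset.mem_filter.1 hm).1
  rw [coeff_map]
  exact sm_hom (isWeightedHomogeneous_C (wt n) _)
    (mo_hom m (fun j => (monomial_le_degreeOf j hm1).trans (hf j)) i)

/-- The generic form. -/
noncomputable def zp (f : MvPolynomial (Fin n) K) :
    Fin n × Fin 2 × Fin 2 → MvPolynomial (Fin n × Fin 2) K := ZG (map C f) (xv K n)

theorem deg_eq (i : Fin n) : 2 • (dg n i + 3 • Pi.single i 1) + 2 • (Pi.single i 1 : Fin n → ℕ) =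
    fun _ => 8 := by
  funext l
  simp only [dg, Pi.add_apply, Pi.smul_apply, Finset.sum_apply, smul_eq_mul]
  by_cases hl : l = i
  · subst hl
    have h1 : ∑ j ∈ Finset.univ.erase l, 4 * (Pi.single j 1 : Fin n → ℕ) l = 0 := by
      refine Finset.sum_eq_zero fun j hj => ?_
      rw [Pi.single_eq_of_ne (Finset.ne_of_mem_erase hj).symm, mul_zero]
    rw [h1, Pi.single_eq_same]
  · have h1 : ∑ j ∈ Finset.univ.erase i, 4 * (Pi.single j 1 : Fin n → ℕ) l = 4 := by
      rw [Finset.sum_eq_single l]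
      · rw [Pi.single_eq_same]
      · intro j _ hj
        rw [Pi.single_eq_of_ne hj.symm, mul_zero]
      · intro h
        exact absurd (Finset.mem_erase.2 ⟨hl, Finset.mem_univ l⟩) h
    rw [h1, Pi.single_eq_of_ne hl]
    norm_num

theorem zp_hom (f : MvPolynomial (Fin n) K) (hf : ∀ j, f.degreeOf j ≤ 4)
    (k : Fin n × Fin 2 × Fin 2) :
    IsWeightedHomogeneous (wt n) (zp f k) (fun _ => 8) := by
  rw [← deg_eq k.1]
  change IsWeightedHomogeneous (wt n) (bd (lc (map C f) (xv K n) k.1) (xv K n k.1) k.2.1 ^ 2 *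
    xv K n k.1 k.2.2 ^ 2) _
  have h1 := bd_hom (lc (map C f) (xv K n) k.1) (xv K n k.1) (dg n k.1) (Pi.single k.1 1)
    (lc_hom f hf k.1) (xv_hom k.1) k.2.1
  exact (h1.pow 2).mul ((xv_hom k.1 k.2.2).pow 2)

/-! ### Forms of multidegree `(M, …, M)` are forms of degree `M` in the products -/

theorem wt_weight (d : Fin n × Fin 2 →₀ ℕ) (j : Fin n) :
    Finsupp.weight (wt n) d j = d (j, 0) + d (j, 1) := by
  rw [Finsupp.weight_apply, Finsupp.sum_fintype _ _ (fun i => zero_smul ℕ (wt n i)),
    Finset.sum_apply, Fintype.sum_prod_type, Finset.sum_eq_single j]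
  · simp [wt, Fin.sum_univ_two]
  · intro l _ hl
    simp [wt, Pi.single_eq_of_ne hl.symm]
  · intro h
    exact absurd (Finset.mem_univ j) h

theorem prod_two (M a b : ℕ) (h : a + b = M) (u v : K) :
    ∏ t ∈ Finset.range M, (if t < a then u else v) = u ^ a * v ^ b := by
  subst h
  rw [Finset.prod_range_add]
  congr 1
  · rw [Finset.prod_congr rfl (fun t ht => if_pos (Finset.mem_range.1 ht)), Finset.prod_const,
      Finset.card_range]
  · rw [Finset.prod_congr rfl (fun t _ => if_neg (by omega)), Finset.prod_const,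
      Finset.card_range]

theorem conv (M : ℕ) (B : MvPolynomial (Fin n × Fin 2) K)
    (hB : IsWeightedHomogeneous (wt n) B (fun _ => M)) :
    ∃ Q : MvPolynomial (Fin n → Fin 2) K, Q.IsHomogeneous M ∧ ∀ x : Fin n → Fin 2 → K,
      eval (fun e => ∏ j, x j (e j)) Q = eval (fun p => x p.1 p.2) B := by
  refine ⟨∑ d ∈ B.support, C (coeff d B) *
    ∏ t ∈ Finset.range M, X (fun j => if t < d (j, 0) then 0 else 1), ?_, fun x => ?_⟩
  · refine IsHomogeneous.sum _ _ _ fun d _ => ?_
    have h1 := IsHomogeneous.prod (Finset.range M)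
      (fun t => (X (fun j => if t < d (j, 0) then 0 else 1) : MvPolynomial (Fin n → Fin 2) K))
      (fun _ => 1) (fun t _ => isHomogeneous_X K _)
    have h2 := (isHomogeneous_C (Fin n → Fin 2) (coeff d B)).mul h1
    simpa using h2
  · rw [map_sum, eval_eq' _ B]
    refine Finset.sum_congr rfl fun d hd => ?_
    have h := hB (mem_support_iff.1 hd)
    rw [map_mul, eval_C, map_prod]
    congr 1
    simp only [eval_X]
    rw [Finset.prod_comm, Fintype.prod_prod_type]
    refine Finset.prod_congr rfl fun j _ => ?_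
    have h1 : d (j, 0) + d (j, 1) = M := by
      rw [← wt_weight, h]
    have h2 := prod_two M _ _ h1 (x j 0) (x j 1)
    rw [Fin.prod_univ_two, ← h2]
    refine Finset.prod_congr rfl fun t _ => ?_
    split_ifs <;> rfl

/-! ### The Nullstellensatz -/

/-- The ideal. -/
noncomputable def idl (f : MvPolynomial (Fin n) K) : Ideal (MvPolynomial (Fin n × Fin 2) K) :=
  Ideal.span (Set.range (zp f))

theorem rad (f : MvPolynomial (Fin n) K) (hs : SmoothN f) (e : Fin n → Fin 2) :
    ∏ j, xv K n j (e j) ∈ (idl f).radical := by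
  rw [← vanishingIdeal_zeroLocus_eq_radical (K := AlgebraicClosure K), mem_vanishingIdeal_iff]
  intro z hz
  rw [idl, zeroLocus_span] at hz
  by_contra hne
  have e1 : aeval z (∏ j, xv K n j (e j)) = ∏ j, z (j, e j) := by
    simp [xv]
  rw [e1] at hne
  have hx : ∀ j, z (j, e j) ≠ 0 := fun j => (Finset.prod_ne_zero_iff.1 hne) j (Finset.mem_univ j)
  have hk (k : Fin n × Fin 2 × Fin 2) :
      ZG (map (algebraMap K (AlgebraicClosure K)) f) (fun j b => z (j, b)) k = 0 := by
    have h1 := hz (zp f k) ⟨k, rfl⟩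
    have h2 := ZG_map (aeval z : MvPolynomial (Fin n × Fin 2) K →ₐ[K]
      AlgebraicClosure K).toRingHom (map C f) (xv K n) k
    have h3 : (aeval z : MvPolynomial (Fin n × Fin 2) K →ₐ[K] AlgebraicClosure K).toRingHom
        (ZG (map C f) (xv K n) k) = 0 := h1
    rw [h3, map_map] at h2
    have h4 : ((aeval z : MvPolynomial (Fin n × Fin 2) K →ₐ[K]
        AlgebraicClosure K).toRingHom.comp C) = algebraMap K (AlgebraicClosure K) := by
      ext c
      simp
    rw [h4] at h2
    have h5 : (fun j b => (aeval z : MvPolynomial (Fin n × Fin 2) K →ₐ[K]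
        AlgebraicClosure K).toRingHom (xv K n j b)) = fun j b => z (j, b) := by
      funext j b
      simp [xv]
    rw [h5] at h2
    exact h2.symm
  obtain ⟨i, k, hik⟩ := hs (fun j b => z (j, b)) fun j h => hx j (congrFun h (e j))
  refine hik ?_
  have h := hk (i, k, e i)
  simp only [ZG] at h
  have h' := (mul_eq_zero.1 h).resolve_right (pow_ne_zero 2 (hx i))
  exact pow_eq_zero_iff two_ne_zero |>.1 h'

theorem pws (f : MvPolynomial (Fin n) K) (hs : SmoothN f) :
    ∃ M : ℕ, ∀ e : Fin n → Fin 2, (∏ j, xv K n j (e j)) ^ (M + 8) ∈ idl f := by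
  have h (e : Fin n → Fin 2) : ∃ r : ℕ, (∏ j, xv K n j (e j)) ^ r ∈ idl f := rad f hs e
  choose r hr using h
  refine ⟨∑ e, r e, fun e => ?_⟩
  have hle : r e ≤ (∑ e, r e) + 8 :=
    (Finset.single_le_sum (f := r) (fun _ _ => Nat.zero_le _) (Finset.mem_univ e)).trans
      (Nat.le_add_right _ _)
  obtain ⟨m, hm⟩ := Nat.exists_eq_add_of_le hle
  rw [hm, pow_add]
  exact Ideal.mul_mem_right _ _ (hr e)

theorem cof (f : MvPolynomial (Fin n) K) (hf : ∀ j, f.degreeOf j ≤ 4) (hs : SmoothN f) :
    ∃ (M : ℕ) (Q : (Fin n → Fin 2) × (Fin n × Fin 2 × Fin 2) →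
      MvPolynomial (Fin n → Fin 2) K), (∀ a, (Q a).IsHomogeneous M) ∧
      ∀ (x : Fin n → Fin 2 → K) (e : Fin n → Fin 2),
        ∑ k, eval (fun e => ∏ j, x j (e j)) (Q (e, k)) * ZG f x k =
          (∏ j, x j (e j)) ^ (M + 8) := by
  classical
  obtain ⟨M, hM⟩ := pws f hs
  let _ : GradedAlgebra (weightedHomogeneousSubmodule K (wt n)) := weightedGradedAlgebra K (wt n)
  have key (e : Fin n → Fin 2) : ∃ B : (Fin n × Fin 2 × Fin 2) →
      MvPolynomial (Fin n × Fin 2) K,
      (∀ k, IsWeightedHomogeneous (wt n) (B k) ((fun _ => M) : Fin n → ℕ)) ∧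
        ∑ k, zp f k * B k = (∏ j, xv K n j (e j)) ^ (M + 8) := by
    obtain ⟨A, hA⟩ := Ideal.mem_span_range_iff_exists_fun.1 (hM e)
    refine ⟨fun k => (DirectSum.decompose (weightedHomogeneousSubmodule K (wt n)) (A k)
      ((fun _ => M) : Fin n → ℕ) : MvPolynomial (Fin n × Fin 2) K), fun k => ?_, ?_⟩
    · exact (DirectSum.decompose (weightedHomogeneousSubmodule K (wt n)) (A k)
        ((fun _ => M) : Fin n → ℕ)).2
    · have h1 (k : Fin n × Fin 2 × Fin 2) :
          zp f k * (DirectSum.decompose (weightedHomogeneousSubmodule K (wt n)) (A k)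
            ((fun _ => M) : Fin n → ℕ) : MvPolynomial (Fin n × Fin 2) K) =
          (DirectSum.decompose (weightedHomogeneousSubmodule K (wt n)) (zp f k * A k)
            (((fun _ => 8) : Fin n → ℕ) + (fun _ => M)) : MvPolynomial (Fin n × Fin 2) K) :=
        (DirectSum.coe_decompose_mul_add_of_left_mem (weightedHomogeneousSubmodule K (wt n))
          (zp_hom f hf k)).symm
      rw [Finset.sum_congr rfl fun k _ => h1 k]
      have h2 : (∏ j, xv K n j (e j)) ^ (M + 8) ∈
          weightedHomogeneousSubmodule K (wt n) (((fun _ => 8) : Fin n → ℕ) + (fun _ => M)) := by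
        have := (IsWeightedHomogeneous.prod Finset.univ (fun j => xv K n j (e j))
          (fun j => Pi.single j 1) (fun j _ => xv_hom (K := K) j (e j))).pow (M + 8)
        have e3 : (M + 8) • (∑ j : Fin n, (Pi.single j 1 : Fin n → ℕ)) =
            ((fun _ => 8) : Fin n → ℕ) + (fun _ => M) := by
          funext l
          rw [Pi.smul_apply, Finset.sum_apply, Finset.sum_eq_single l]
          · rw [Pi.single_eq_same]
            simp only [Pi.add_apply, smul_eq_mul, mul_one]
            omega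
          · intro j _ hj
            rw [Pi.single_eq_of_ne hj.symm]
          · intro h
            exact absurd (Finset.mem_univ l) h
        rw [e3] at this
        exact this
      rw [← DirectSum.decompose_of_mem_same _ h2, ← hA, DirectSum.decompose_sum]
      rw [DirectSum.sum_apply, AddSubmonoidClass.coe_finsetSum]
      refine Finset.sum_congr rfl fun k _ => ?_
      rw [mul_comm (A k)]
  choose B hB1 hB2 using key
  have key2 (a : (Fin n → Fin 2) × (Fin n × Fin 2 × Fin 2)) :=
    conv M (B a.1 a.2) (hB1 a.1 a.2)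
  choose Q hQ1 hQ2 using key2
  refine ⟨M, Q, hQ1, fun x e => ?_⟩
  have h := congrArg (eval (fun p : Fin n × Fin 2 => x p.1 p.2)) (hB2 e)
  rw [map_sum] at h
  have e1 : eval (fun p : Fin n × Fin 2 => x p.1 p.2) ((∏ j, xv K n j (e j)) ^ (M + 8)) =
      (∏ j, x j (e j)) ^ (M + 8) := by
    simp [xv]
  rw [e1] at h
  rw [← h]
  refine Finset.sum_congr rfl fun k _ => ?_
  rw [hQ2, map_mul, mul_comm]
  have h2 := ZG_map (eval (fun p : Fin n × Fin 2 => x p.1 p.2)) (map C f) (xv K n) k
  have e2 : eval (fun p : Fin n × Fin 2 => x p.1 p.2) (zp f k) = ZG f x k := by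
    unfold zp
    rw [h2, map_map]
    have h4 : ((eval (fun p : Fin n × Fin 2 => x p.1 p.2)).comp C) = RingHom.id K := by
      ext c
      simp
    have h5 : (fun j b => eval (fun p : Fin n × Fin 2 => x p.1 p.2) (xv K n j b)) = x := by
      funext j b
      simp [xv]
    rw [h4, h5, map_id]
  rw [e2]

/-! ### Heights -/

/-- NSN: a lower bound for the height of the partial derivatives, on all of `(ℙ¹)ⁿ`. -/
theorem nsn : S_NSN := by
  intro K _ _ n f hf hs
  obtain ⟨M, Q, hQ1, hQ2⟩ := cof f hf hs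
  obtain ⟨D, hD, hD2⟩ := mulHeight_eval_ge' (K := K) (N := 8) hQ1
  refine ⟨D, hD, fun z => ?_⟩
  have haf : ∀ j, af z j ≠ 0 := fun j h => one_ne_zero (congrFun h 0)
  have hZ : ZN f z = ZG f (af z) := rfl
  refine ⟨fun h0 => ?_, ?_⟩
  · have h := hQ2 (af z) (fun _ => 0)
    rw [← hZ, h0] at h
    simp [af] at h
  · have h := hD2 (fun k => C (ZG f (af z) k))
      (x := fun e => ∏ j, af z j (e j)) (fun e => by
        simp only [eval_C]
        exact hQ2 _ e)
    rw [mulHeight_fun_prod_eq haf] at h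
    have h1 : ∀ j, mulHeight (af z j) = mulHeight₁ (z j) := by
      intro j
      rw [mulHeight₁_eq_mulHeight, mulHeight_swap]
      rfl
    simp only [h1, eval_C] at h
    exact h

end Pool.Agent.Q192.TT
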