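import Pool.Agent.Q35.TT.Stm3
import Pool.Agent.Q149.TT.Mza

/-! # Project TT (helper35), job ACC: rational curves `w² = quartic` with a multiple root -/

set_option autoImplicit false
set_option linter.unusedSectionVars false

open Pool.Agent.Y720.MZ Pool.Agent.Q35.TT Pool.Agent.Q149.TT Filter Topology

namespace Pool.Agent.Q192.TT

section fac

variable {K : Type} [Field K]

theorem dc_rev {R : Type} [CommRing R] (a b c d e : R) : dc e d c b a = dc a b c d e := by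
  rw [dc, dc, dsc, dsc]
  ring

/-- the factorisation of a quartic polynomial with discriminant zero -/
theorem fac [CharZero K] {c0 c1 c2 c3 c4 : K} (h0 : c0 ≠ 0) (hd : dc c0 c1 c2 c3 c4 = 0) :
    (∃ x0 x1 x2 y0 : K, x2 ≠ 0 ∧ ∀ t, c0 + c1 * t + c2 * t ^ 2 + c3 * t ^ 3 + c4 * t ^ 4 =
      y0 * (x0 * t ^ 2 + x1 * t + x2) ^ 2) ∨
    ∃ x0 x1 y0 y1 y2 : K, x1 ≠ 0 ∧ ∀ t, c0 + c1 * t + c2 * t ^ 2 + c3 * t ^ 3 + c4 * t ^ 4 =
      (x0 * t + x1) ^ 2 * (y0 * t ^ 2 + y1 * t + y2) := by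
  have hcf := qpol_coeff c4 c3 c2 c1 c0
  have hdeg : (qpol c4 c3 c2 c1 c0).natDegree = 4 := by
    refine le_antisymm ?_ (Polynomial.le_natDegree_of_ne_zero (by rw [hcf.2.2.2.2]; exact h0))
    unfold qpol
    compute_degree
  have hne : qpol c4 c3 c2 c1 c0 ≠ 0 := by
    intro h
    rw [h, Polynomial.natDegree_zero] at hdeg
    omega
  have hns : ¬ (qpol c4 c3 c2 c1 c0).Separable := by
    intro h
    refine dc_ne_zero h (by omega) ?_
    rw [dc_rev]
    exact hd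
  rw [PerfectField.separable_iff_squarefree, Squarefree] at hns
  push Not at hns
  obtain ⟨x, ⟨y, hxy⟩, hxu⟩ := hns
  have hx0 : x ≠ 0 := by
    rintro rfl
    rw [zero_mul, zero_mul] at hxy
    exact hne hxy
  have hy0 : y ≠ 0 := by
    rintro rfl
    rw [mul_zero] at hxy
    exact hne hxy
  have hdx : x.natDegree ≠ 0 := by
    intro h
    rw [Polynomial.eq_C_of_natDegree_eq_zero h] at hxu
    refine hxu (Polynomial.isUnit_C.2 (isUnit_iff_ne_zero.2 fun h1 => hx0 ?_))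
    rw [Polynomial.eq_C_of_natDegree_eq_zero h, h1, Polynomial.C_0]
  have hd2 : 4 = x.natDegree + x.natDegree + y.natDegree := by
    rw [← hdeg, hxy, Polynomial.natDegree_mul (mul_ne_zero hx0 hx0) hy0,
      Polynomial.natDegree_mul hx0 hx0]
  have hval : ∀ t : K, t ≠ 0 → c0 + c1 * t + c2 * t ^ 2 + c3 * t ^ 3 + c4 * t ^ 4 =
      t ^ 4 * (x.eval t⁻¹ * x.eval t⁻¹ * y.eval t⁻¹) := by
    intro t ht
    have h1 : (qpol c4 c3 c2 c1 c0).eval t⁻¹ = x.eval t⁻¹ * x.eval t⁻¹ * y.eval t⁻¹ := by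
      rw [hxy, Polynomial.eval_mul, Polynomial.eval_mul]
    rw [← h1]
    simp only [qpol, Polynomial.eval_add, Polynomial.eval_mul, Polynomial.eval_C,
      Polynomial.eval_X, Polynomial.eval_pow]
    field_simp
    ring
  -- polynomial identities in `t` extend to `t = 0`
  have hext : ∀ P Q : Polynomial K, (∀ t : K, t ≠ 0 → P.eval t = Q.eval t) →
      ∀ t : K, P.eval t = Q.eval t := by
    intro P Q hPQ t
    have h1 : P - Q = 0 := by
      refine Polynomial.eq_zero_of_infinite_isRoot _ ?_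
      refine (Set.finite_singleton (0 : K)).infinite_compl.mono fun u hu => ?_
      show (P - Q).eval u = 0
      rw [Polynomial.eval_sub, hPQ u hu, sub_self]
    rw [sub_eq_zero.1 h1]
  have hx12 : x.natDegree = 1 ∨ x.natDegree = 2 := by omega
  rcases hx12 with h1 | h1
  · right
    have hy2 : y.natDegree = 2 := by omega
    refine ⟨x.coeff 0, x.coeff 1, y.coeff 0, y.coeff 1, y.coeff 2, ?_, ?_⟩
    · rw [← h1]
      exact Polynomial.leadingCoeff_ne_zero.2 hx0
    · intro t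
      have h2 := hext (.C c0 + .C c1 * .X + .C c2 * .X ^ 2 + .C c3 * .X ^ 3 + .C c4 * .X ^ 4)
        ((.C (x.coeff 0) * .X + .C (x.coeff 1)) ^ 2 *
          (.C (y.coeff 0) * .X ^ 2 + .C (y.coeff 1) * .X + .C (y.coeff 2))) (by
        intro t ht
        simp only [Polynomial.eval_add, Polynomial.eval_mul, Polynomial.eval_C,
          Polynomial.eval_X, Polynomial.eval_pow]
        rw [hval t ht, Polynomial.eval_eq_sum_range, Polynomial.eval_eq_sum_range, h1, hy2]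
        simp only [Finset.sum_range_succ, Finset.sum_range_zero]
        field_simp
        ring) t
      simpa only [Polynomial.eval_add, Polynomial.eval_mul, Polynomial.eval_C,
        Polynomial.eval_X, Polynomial.eval_pow] using h2
  · left
    have hy2 : y.natDegree = 0 := by omega
    refine ⟨x.coeff 0, x.coeff 1, x.coeff 2, y.coeff 0, ?_, ?_⟩
    · rw [← h1]
      exact Polynomial.leadingCoeff_ne_zero.2 hx0
    · intro t
      have h2 := hext (.C c0 + .C c1 * .X + .C c2 * .X ^ 2 + .C c3 * .X ^ 3 + .C c4 * .X ^ 4)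
        (.C (y.coeff 0) * (.C (x.coeff 0) * .X ^ 2 + .C (x.coeff 1) * .X + .C (x.coeff 2)) ^ 2) (by
        intro t ht
        simp only [Polynomial.eval_add, Polynomial.eval_mul, Polynomial.eval_C,
          Polynomial.eval_X, Polynomial.eval_pow]
        rw [hval t ht, Polynomial.eval_eq_sum_range, Polynomial.eval_eq_sum_range, h1, hy2]
        simp only [Finset.sum_range_succ, Finset.sum_range_zero]
        field_simp
        ring) t
      simpa only [Polynomial.eval_add, Polynomial.eval_mul, Polynomial.eval_C,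
        Polynomial.eval_X, Polynomial.eval_pow] using h2

end fac

section pick

variable {K L : Type} [Field K] [NontriviallyNormedField L]

theorem pick (σ : K →+* L) (hσ : DenseRange σ) (c : K) {T W : L → L}
    (hT : ContinuousAt T (σ c)) (hT0 : T (σ c) = 0) (hW : ContinuousAt W (σ c)) {w : L}
    (hW0 : W (σ c) = w) {P : L → Prop} (hP : ∀ᶠ μ in 𝓝 (σ c), P μ) {ε : ℝ} (hε : 0 < ε) :
    ∃ m : K, m ≠ c ∧ ‖T (σ m)‖ < ε ∧ ‖W (σ m) - w‖ < ε ∧ P (σ m) := by
  have h1 : ∀ᶠ μ in 𝓝 (σ c), ‖T μ‖ < ε := by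
    have h := hT.norm
    have h2 : Tendsto (fun μ => ‖T μ‖) (𝓝 (σ c)) (𝓝 0) := by
      have h3 : ‖T (σ c)‖ = 0 := by rw [hT0, norm_zero]
      rw [← h3]
      exact h
    exact h2.eventually (gt_mem_nhds hε)
  have h2 : ∀ᶠ μ in 𝓝 (σ c), ‖W μ - w‖ < ε := by
    have h := (hW.sub (continuousAt_const (y := w))).norm
    have h2 : Tendsto (fun μ => ‖W μ - w‖) (𝓝 (σ c)) (𝓝 0) := by
      have h3 : ‖W (σ c) - w‖ = 0 := by rw [hW0, sub_self, norm_zero]
      rw [← h3]
      exact h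
    exact h2.eventually (gt_mem_nhds hε)
  obtain ⟨V, hV, hVo, hcV⟩ := mem_nhds_iff.1 ((h1.and h2).and hP)
  have hne : (V ∩ {σ c}ᶜ).Nonempty := by
    have h3 : V ∩ {σ c}ᶜ ∈ 𝓝[≠] (σ c) :=
      Filter.inter_mem (mem_nhdsWithin_of_mem_nhds (hVo.mem_nhds hcV)) self_mem_nhdsWithin
    exact Filter.nonempty_of_mem h3
  obtain ⟨m, hm⟩ := hσ.exists_mem_open (hVo.inter isClosed_singleton.isOpen_compl) hne
  obtain ⟨⟨a1, a2⟩, a3⟩ := hV hm.1
  refine ⟨m, ?_, a1, a2, a3⟩
  rintro rfl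
  exact hm.2 rfl

end pick

theorem acc : S_ACC := by
  intro K L _ _ _ σ hσ a s w hw hF hd ε hε
  -- the polynomial at `s`
  obtain ⟨c0, hc0⟩ : ∃ c0, c0 = a 0 + s * a 1 + s ^ 2 * a 2 + s ^ 3 * a 3 + s ^ 4 * a 4 := ⟨_, rfl⟩
  obtain ⟨c1, hc1⟩ : ∃ c1, c1 = a 1 + 2 * s * a 2 + 3 * s ^ 2 * a 3 + 4 * s ^ 3 * a 4 := ⟨_, rfl⟩
  obtain ⟨c2, hc2⟩ : ∃ c2, c2 = a 2 + 3 * s * a 3 + 6 * s ^ 2 * a 4 := ⟨_, rfl⟩
  obtain ⟨c3, hc3⟩ : ∃ c3, c3 = a 3 + 4 * s * a 4 := ⟨_, rfl⟩
  have hq : ∀ τ, bq a ![1, s + τ] = c0 + c1 * τ + c2 * τ ^ 2 + c3 * τ ^ 3 + a 4 * τ ^ 4 := by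
    intro τ
    rw [bq_one, hc0, hc1, hc2, hc3]
    ring
  have hw0 : w ^ 2 = c0 := by
    have h1 := hq 0
    rw [add_zero] at h1
    rw [hF, h1]
    ring
  have hc00 : c0 ≠ 0 := by
    rw [← hw0]
    exact pow_ne_zero 2 hw
  have hd' : dc c0 c1 c2 c3 (a 4) = 0 := by
    rw [hc0, hc1, hc2, hc3, dc_shift]
    exact hd
  -- it suffices to find the increment
  suffices h : ∃ τ w' : K, τ ≠ 0 ∧ ‖σ τ‖ < ε ∧ ‖σ w' - σ w‖ < ε ∧
      w' ^ 2 = c0 + c1 * τ + c2 * τ ^ 2 + c3 * τ ^ 3 + a 4 * τ ^ 4 by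
    obtain ⟨τ, w', h1, h2, h3, h4⟩ := h
    refine ⟨s + τ, w', ?_, ?_, h3, ?_⟩
    · intro h5
      exact h1 (left_eq_add.1 h5.symm)
    · rw [map_add, add_sub_cancel_left]
      exact h2
    · rw [h4, hq]
  have hz : σ 0 = 0 := map_zero σ
  rcases fac hc00 hd' with ⟨x0, x1, x2, y0, hx2, hfac⟩ | ⟨x0, x1, y0, y1, y2, hx1, hfac⟩
  · have h0 : w ^ 2 = y0 * x2 ^ 2 := by
      have h1 := hfac 0
      rw [hw0]
      linear_combination h1
    have hy0 : y0 = (w / x2) ^ 2 := by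
      rw [div_pow, h0]
      field_simp
    obtain ⟨τ, h1, h2, h3, -⟩ := pick σ hσ 0 (T := fun μ => μ)
      (W := fun μ => σ (w / x2) * (σ x0 * μ ^ 2 + σ x1 * μ + σ x2)) continuousAt_id hz
      (by fun_prop) (w := σ w) (by
        rw [hz]
        have h4 : σ (w / x2) * σ x2 = σ w := by
          rw [← map_mul, div_mul_cancel₀ _ hx2]
        simpa using h4) (P := fun _ => True) (Eventually.of_forall fun _ => trivial) hε
    refine ⟨τ, w / x2 * (x0 * τ ^ 2 + x1 * τ + x2), h1, h2, ?_, ?_⟩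
    · simpa only [map_mul, map_add, map_pow] using h3
    · rw [hfac, hy0]
      ring
  · have h0 : w ^ 2 = x1 ^ 2 * y2 := by
      have h1 := hfac 0
      rw [hw0]
      linear_combination h1
    obtain ⟨u, hu⟩ : ∃ u, u = w / x1 := ⟨_, rfl⟩
    have hu0 : u ≠ 0 := by
      rw [hu]
      exact div_ne_zero hw hx1
    have huw : x1 * u = w := by
      rw [hu]
      field_simp
    have hy2 : y2 = u ^ 2 := by
      rw [hu, div_pow, h0]
      field_simp
    obtain ⟨m0, hm0⟩ : ∃ m0, m0 = y1 / (2 * u) := ⟨_, rfl⟩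
    have hy1 : y1 = 2 * u * m0 := by
      rw [hm0]
      field_simp
    by_cases hm : m0 ^ 2 = y0
    · obtain ⟨τ, h1, h2, h3, -⟩ := pick σ hσ 0 (T := fun μ => μ)
        (W := fun μ => (σ x0 * μ + σ x1) * (σ u + σ m0 * μ)) continuousAt_id hz
        (by fun_prop) (w := σ w) (by
          rw [hz, ← huw, map_mul]
          ring) (P := fun _ => True) (Eventually.of_forall fun _ => trivial) hε
      refine ⟨τ, (x0 * τ + x1) * (u + m0 * τ), h1, h2, ?_, ?_⟩
      · simpa only [map_mul, map_add] using h3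
      · rw [hfac, hy2, hy1, ← hm]
        ring
    · have hden : σ m0 ^ 2 - σ y0 ≠ 0 := by
        rw [← map_pow, ← map_sub]
        exact (map_ne_zero σ).2 (sub_ne_zero.2 hm)
      have hTc : ContinuousAt (fun μ => 2 * σ u * (σ m0 - μ) / (μ ^ 2 - σ y0)) (σ m0) :=
        ContinuousAt.div (by fun_prop) (by fun_prop) hden
      have hT0 : (fun μ => 2 * σ u * (σ m0 - μ) / (μ ^ 2 - σ y0)) (σ m0) = 0 := by
        simp
      obtain ⟨m, h1, h2, h3, h4⟩ := pick σ hσ m0
        (T := fun μ => 2 * σ u * (σ m0 - μ) / (μ ^ 2 - σ y0))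
        (W := fun μ => (σ x0 * (2 * σ u * (σ m0 - μ) / (μ ^ 2 - σ y0)) + σ x1) *
          (σ u + μ * (2 * σ u * (σ m0 - μ) / (μ ^ 2 - σ y0)))) hTc hT0
        (((continuousAt_const.mul hTc).add continuousAt_const).mul
          (continuousAt_const.add (continuousAt_id.mul hTc))) (w := σ w) (by
          rw [← huw, map_mul]
          simp) (P := fun μ => μ ^ 2 - σ y0 ≠ 0)
        (ContinuousAt.eventually_ne (by fun_prop) hden) hε
      have hmy : m ^ 2 - y0 ≠ 0 := by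
        intro h5
        apply h4
        rw [← map_pow, ← map_sub, h5, map_zero]
      have hστ : σ (2 * u * (m0 - m) / (m ^ 2 - y0)) =
          2 * σ u * (σ m0 - σ m) / (σ m ^ 2 - σ y0) := by
        simp only [map_div₀, map_mul, map_sub, map_pow, map_ofNat]
      refine ⟨2 * u * (m0 - m) / (m ^ 2 - y0), (x0 * (2 * u * (m0 - m) / (m ^ 2 - y0)) + x1) *
        (u + m * (2 * u * (m0 - m) / (m ^ 2 - y0))), ?_, ?_, ?_, ?_⟩
      · exact div_ne_zero (mul_ne_zero (mul_ne_zero two_ne_zero hu0) (sub_ne_zero.2 h1.symm)) hmy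
      · rw [hστ]
        exact h2
      · rw [map_mul, map_add, map_add, map_mul, map_mul, hστ]
        exact h3
      · rw [hfac, hy2, hy1]
        field_simp
        ring

end Pool.Agent.Q192.TT
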