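import Pool.Agent.Q35.TT.Stm3
import Pool.Agent.Q149.TT.Mza

/-! # Project TT (helper35), job MOV: moving in a direction in which the point is not torsion -/

set_option autoImplicit false
set_option linter.unusedSectionVars false

open Pool.Agent.Y720.MZ Pool.Agent.Q35.TT Pool.Agent.Q149.TT Filter Topology MvPolynomial

namespace Pool.Agent.Q192.TT

section

variable {K : Type} [Field K] {n : ℕ}

theorem mo_af (m : Fin n →₀ ℕ) (z : Fin n → K) (i : Fin n) :
    mo m (af z) i = ∏ j ∈ Finset.univ.erase i, z j ^ m j := by
  unfold mo af
  refine Finset.prod_congr rfl fun j _ => ?_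
  simp

theorem term_split (m : Fin n →₀ ℕ) (z : Fin n → K) (i : Fin n) (t : K) :
    ∏ j, Function.update z i t j ^ m j = (∏ j ∈ Finset.univ.erase i, z j ^ m j) * t ^ m i := by
  rw [← Finset.prod_erase_mul _ _ (Finset.mem_univ i), Function.update_self]
  congr 1
  refine Finset.prod_congr rfl fun j hj => ?_
  rw [Function.update_of_ne (Finset.ne_of_mem_erase hj)]

/-- the quartic form on the line in the direction `i` -/
theorem bq_lc (f : MvPolynomial (Fin n) K) (hf : ∀ j, f.degreeOf j ≤ 4) (z : Fin n → K) (i : Fin n)
    (t : K) : bq (lc f (af z) i) ![1, t] = eval (Function.update z i t) f := by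
  classical
  have hs : ∀ k : Fin 5, lc f (af z) i k * t ^ (k : ℕ) =
      ∑ m ∈ f.support with m i = (k : ℕ), f.coeff m * ∏ j, Function.update z i t j ^ m j := by
    intro k
    unfold lc
    rw [Finset.sum_mul]
    refine Finset.sum_congr rfl fun m hm => ?_
    rw [Finset.mem_filter] at hm
    rw [term_split, mo_af, hm.2]
    ring
  have h1 : eval (Function.update z i t) f = ∑ k : Fin 5, lc f (af z) i k * t ^ (k : ℕ) := by
    rw [eval_eq']
    simp only [hs]
    simp only [Finset.sum_filter]
    rw [Finset.sum_comm]
    refine Finset.sum_congr rfl fun m hm => ?_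
    have hm4 : m i < 5 := Nat.lt_succ_of_le ((monomial_le_degreeOf i hm).trans (hf i))
    rw [Finset.sum_eq_single (⟨m i, hm4⟩ : Fin 5)]
    · simp
    · intro k _ hk
      rw [if_neg]
      intro h
      exact hk (Fin.ext h.symm)
    · intro h
      exact absurd (Finset.mem_univ _) h
  rw [h1, Fin.sum_univ_five]
  simp only [bq, Matrix.cons_val_zero, Matrix.cons_val_one]
  simp

end

theorem mov (hTWS : S_TWS) (hACC : S_ACC) : S_MOV := by
  intro K _ _ L _ _ σ hσ n f hf z w i hw hF hT ε hε g hg
  have : ProperSpace L := Pool.Agent.W279.Tri.properSpace_of_denseRange σ hσ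
  have : CharZero L := charZero_of_injective_ringHom σ.injective
  have hF' : w ^ 2 = bq (lc f (af z) i) ![1, z i] := by
    rw [bq_lc f hf, Function.update_eq_self, hF]
  have hinf : {t : K | ‖σ t‖ < ε ∧ ∃ Y : K, ‖σ (Y - w)‖ < ε ∧
      Y ^ 2 = bq (lc f (af z) i) ![1, z i + t]}.Infinite := by
    by_cases hd : dF (lc f (af z) i) = 0
    · apply infinite_small σ
      intro δ hδ
      obtain ⟨s', w', h1, h2, h3, h4⟩ := hACC K L σ hσ (lc f (af z) i) (z i) w hw hF' hd (min δ ε)
        (lt_min hδ hε)
      refine ⟨s' - z i, sub_ne_zero.2 h1, ?_, ?_, w', ?_, ?_⟩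
      · rw [map_sub]
        exact h2.trans_le (min_le_left _ _)
      · rw [map_sub]
        exact h2.trans_le (min_le_right _ _)
      · rw [map_sub]
        exact h3.trans_le (min_le_right _ _)
      · rw [add_sub_cancel]
        exact h4
    · refine move_inf σ hw hF' hd ?_ hε
      rintro ⟨N, hN, hTor⟩
      refine hT ⟨N, hN, ?_⟩
      have h1 := hTWS K (lc f (af z) i) 1 (z i) w N one_ne_zero
      simp only [one_mul] at h1
      exact (h1.1 hTor).2.2
  obtain ⟨y, hy, hgy⟩ := hg
  have hyu : y = Function.update z i (z i + (y i - z i)) := by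
    funext k
    by_cases hk : k = i
    · subst hk
      rw [Function.update_self]
      ring
    · rw [Function.update_of_ne hk]
      exact hy k (by simpa using hk)
  have hpf : PF1 fun t : K => eval (Function.update z i (z i + t)) g := by
    have h1 : ∀ k : Fin n, PF1 fun t : K => Function.update z i (z i + t) k := by
      intro k
      by_cases hk : k = i
      · subst hk
        have h2 : (fun t : K => Function.update z k (z k + t) k) = fun t => z k + t := by
          funext t
          rw [Function.update_self]
        rw [h2]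
        exact (PF1.const (z k)).add PF1.id'
      · have h2 : (fun t : K => Function.update z i (z i + t) k) = fun _ => z k := by
          funext t
          rw [Function.update_of_ne hk]
        rw [h2]
        exact PF1.const _
    exact PF1.eval (φ := fun (k : Fin n) (t : K) => Function.update z i (z i + t) k) h1 g
  have hfin : {t : K | eval (Function.update z i (z i + t)) g = 0}.Finite :=
    hpf.finite (τ := y i - z i) (by
      show eval (Function.update z i (z i + (y i - z i))) g ≠ 0
      rw [← hyu]
      exact hgy)
  obtain ⟨t, ⟨h1, Y, h2, h3⟩, h4⟩ := (hinf.sdiff hfin).nonempty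
  refine ⟨Function.update z i (z i + t), Y, ?_, ?_, ?_, ?_, h4⟩
  · rw [h3, bq_lc f hf]
  · intro k hk
    rw [Function.update_of_ne]
    intro h
    exact hk (by simp [h])
  · intro k
    by_cases hk : k = i
    · subst hk
      rw [Function.update_self, map_add, add_sub_cancel_left]
      exact h1
    · rw [Function.update_of_ne hk, sub_self, norm_zero]
      exact hε
  · rw [← map_sub]
    exact h2

end Pool.Agent.Q192.TT
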