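import Pool.Agent.Q68.TT.Sel
import Pool.Agent.Q35.TT.Stm3

/-! # Project TT (helper35), job SEN: a place of good reduction with a small residue field, several variables
(after the proof of helper68 in one variable) -/

set_option autoImplicit false
set_option linter.unusedSectionVars false

namespace Pool.Agent.Q192.TT

open Pool.Agent.Q35.TT Pool.Agent.Q68.TT Height Height.AdmissibleAbsValues Function

section
variable {K : Type} [Field K] [AdmissibleAbsValues K]

/-- the product of the local maxima -/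
noncomputable def mx {n : ℕ} (z : Fin n → K) (v : AbsoluteValue K ℝ) : ℝ := ∏ j, max (v (z j)) 1

theorem one_le_mx {n : ℕ} (z : Fin n → K) (v : AbsoluteValue K ℝ) : 1 ≤ mx z v := by
  have h1 : (1 : ℝ) = ∏ _j : Fin n, (1 : ℝ) := by rw [Finset.prod_const_one]
  unfold mx
  conv_lhs => rw [h1]
  exact Finset.prod_le_prod (fun _ _ => zero_le_one) fun j _ => le_max_right _ _

theorem fin_mx {n : ℕ} (z : Fin n → K) :
    (fun v : nonarchAbsVal (K := K) => mx z v.val).HasFiniteMulSupport := by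
  have h1 : (⋃ j : Fin n, mulSupport fun v : nonarchAbsVal (K := K) =>
      max (v.val (z j)) 1).Finite := Set.finite_iUnion fun j => fin_m (z j)
  refine Set.Finite.subset h1 fun w hw => ?_
  by_contra hcon
  apply hw
  show mx z w.val = 1
  refine Finset.prod_eq_one fun j _ => ?_
  by_contra h2
  exact hcon (Set.mem_iUnion.2 ⟨j, h2⟩)

/-- the height is the product of the local maxima -/
theorem mx_height {n : ℕ} (z : Fin n → K) :
    ((archAbsVal (K := K)).map (mx z)).prod * (∏ᶠ v : nonarchAbsVal (K := K), mx z v.val) =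
      ∏ j, mulHeight₁ (z j) := by
  have h1 : ((archAbsVal (K := K)).map (mx z)).prod =
      ∏ j, ((archAbsVal (K := K)).map fun v => max (v (z j)) 1).prod := by
    have h2 : ∀ s : Multiset (AbsoluteValue K ℝ), (s.map (mx z)).prod =
        ∏ j, (s.map fun v => max (v (z j)) 1).prod := by
      intro s
      induction s using Multiset.induction_on with
      | empty => simp
      | cons a s ih =>
        simp only [Multiset.map_cons, Multiset.prod_cons]
        rw [ih, Finset.prod_mul_distrib]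
        rfl
    exact h2 _
  have h3 : (∏ᶠ v : nonarchAbsVal (K := K), mx z v.val) =
      ∏ j, ∏ᶠ v : nonarchAbsVal (K := K), max (v.val (z j)) 1 := by
    unfold mx
    exact finprod_prod_comm Finset.univ (fun (v : nonarchAbsVal (K := K)) (j : Fin n) =>
      max (v.val (z j)) 1) fun j _ => fin_m (z j)
  rw [h1, h3, ← Finset.prod_mul_distrib]
  refine Finset.prod_congr rfl fun j _ => ?_
  rw [mulHeight₁_eq]

/-- the product formula with local upper bounds -/
theorem prod_bd {n : ℕ} (z : Fin n → K) (Ca Cn : AbsoluteValue K ℝ → ℝ) (hC : ∀ v, 1 ≤ Cn v)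
    (hCf : (fun v : nonarchAbsVal (K := K) => Cn v.val).HasFiniteMulSupport) (d : ℕ) (x : K)
    (hx : x ≠ 0) (h1 : ∀ v ∈ archAbsVal (K := K), v x ≤ Ca v * mx z v ^ d)
    (h2 : ∀ v ∈ nonarchAbsVal (K := K), v x ≤ Cn v * mx z v ^ d)
    (A : Finset (nonarchAbsVal (K := K))) :
    1 ≤ ((archAbsVal (K := K)).map Ca).prod * (∏ᶠ v : nonarchAbsVal (K := K), Cn v.val) *
      (∏ j, mulHeight₁ (z j)) ^ d * ∏ v ∈ A, (v.val x / (Cn v.val * mx z v.val ^ d)) := by
  classical
  obtain ⟨r, hr⟩ : ∃ r : nonarchAbsVal (K := K) → ℝ,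
    r = fun v => v.val x / (Cn v.val * mx z v.val ^ d) := ⟨_, rfl⟩
  have hrv : ∀ v, r v = v.val x / (Cn v.val * mx z v.val ^ d) := fun v => by rw [hr]
  have hf := hasFiniteMulSupport (K := K) hx
  have hm := fin_mx z
  have hm1 : ∀ v : nonarchAbsVal (K := K), 1 ≤ mx z v.val := fun v => one_le_mx z v.val
  have hden : ∀ v : nonarchAbsVal (K := K), 0 < Cn v.val * mx z v.val ^ d := fun v =>
    mul_pos (by linarith [hC v.val]) (pow_pos (by linarith [hm1 v]) _)
  have hmd : (fun v : nonarchAbsVal (K := K) => mx z v.val ^ d).HasFiniteMulSupport := by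
    refine Set.Finite.subset hm fun v hv hv' => hv ?_
    have h3 : mx z v.val = 1 := hv'
    show mx z v.val ^ d = 1
    rw [h3, one_pow]
  have hCm : (fun v : nonarchAbsVal (K := K) => Cn v.val * mx z v.val ^ d).HasFiniteMulSupport := by
    refine Set.Finite.subset (Set.Finite.union hCf hmd) fun v hv => ?_
    by_contra hcon
    rw [Set.mem_union, not_or] at hcon
    have h3 : Cn v.val = 1 := by
      by_contra h4
      exact hcon.1 h4
    have h5 : mx z v.val ^ d = 1 := by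
      by_contra h4
      exact hcon.2 h4
    apply hv
    show Cn v.val * mx z v.val ^ d = 1
    rw [h3, h5, one_mul]
  have hrf : r.HasFiniteMulSupport := by
    refine Set.Finite.subset (Set.Finite.union hf hCm) fun v hv => ?_
    by_contra hcon
    rw [Set.mem_union, not_or] at hcon
    have h3 : v.val x = 1 := by
      by_contra h4
      exact hcon.1 h4
    have h5 : Cn v.val * mx z v.val ^ d = 1 := by
      by_contra h4
      exact hcon.2 h4
    apply hv
    rw [hrv, h3, h5, div_one]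
  have hr0 : ∀ v, 0 ≤ r v := fun v => by
    rw [hrv]
    exact div_nonneg (v.val.nonneg _) (hden v).le
  have hr1 : ∀ v, r v ≤ 1 := fun v => by
    rw [hrv, div_le_one (hden v)]
    exact h2 v.val v.2
  have hsplit : ∏ᶠ v : nonarchAbsVal (K := K), v.val x = (∏ᶠ v, r v) *
      ((∏ᶠ v : nonarchAbsVal (K := K), Cn v.val) *
        (∏ᶠ v : nonarchAbsVal (K := K), mx z v.val) ^ d) := by
    rw [finprod_pow hm, ← finprod_mul_distrib hCf hmd, ← finprod_mul_distrib hrf hCm]
    refine finprod_congr fun v => ?_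
    rw [hrv, div_mul_cancel₀ _ (hden v).ne']
  have hrf2 : (mulSupport r).Finite := hrf
  have hA : ∏ᶠ v, r v ≤ ∏ v ∈ A, r v := by
    have h3 : mulSupport r ⊆ ((hrf2.toFinset ∪ A : Finset (nonarchAbsVal (K := K))) :
        Set (nonarchAbsVal (K := K))) := by
      intro v hv
      rw [Finset.coe_union]
      left
      rw [Finset.mem_coe, Set.Finite.mem_toFinset]
      exact hv
    rw [finprod_eq_prod_of_mulSupport_subset r h3,
      ← Finset.prod_sdiff (Finset.subset_union_right (s₁ := hrf2.toFinset) (s₂ := A))]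
    exact mul_le_of_le_one_left (Finset.prod_nonneg fun v _ => hr0 v)
      (Finset.prod_le_one (fun v _ => hr0 v) fun v _ => hr1 v)
  have harch : ((archAbsVal (K := K)).map (· x)).prod ≤ ((archAbsVal (K := K)).map Ca).prod *
      ((archAbsVal (K := K)).map (mx z)).prod ^ d := by
    rw [← Multiset.prod_map_pow, ← Multiset.prod_map_mul]
    exact Multiset.prod_map_le_prod_map₀ _ _ (fun v _ => v.nonneg _) h1
  have hpf := product_formula (K := K) hx
  rw [hsplit] at hpf
  have hCf0 : 0 ≤ ∏ᶠ v : nonarchAbsVal (K := K), Cn v.val :=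
    finprod_nonneg fun v => by linarith [hC v.val]
  have hMf0 : 0 ≤ ∏ᶠ v : nonarchAbsVal (K := K), mx z v.val :=
    finprod_nonneg fun v => by linarith [hm1 v]
  have hR0 : 0 ≤ ∏ᶠ v, r v := finprod_nonneg hr0
  have ha0 : 0 ≤ ((archAbsVal (K := K)).map (· x)).prod :=
    Multiset.prod_nonneg fun y hy => by
      obtain ⟨v, -, rfl⟩ := Multiset.mem_map.1 hy
      exact v.nonneg _
  have hprodA : ∏ v ∈ A, (v.val x / (Cn v.val * mx z v.val ^ d)) = ∏ v ∈ A, r v :=
    Finset.prod_congr rfl fun v _ => (hrv v).symm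
  rw [hprodA, ← mx_height]
  refine (le_of_eq hpf.symm).trans ?_
  have hMfd : 0 ≤ (∏ᶠ v : nonarchAbsVal (K := K), Cn v.val) *
      (∏ᶠ v : nonarchAbsVal (K := K), mx z v.val) ^ d := mul_nonneg hCf0 (pow_nonneg hMf0 _)
  calc ((archAbsVal (K := K)).map (· x)).prod * ((∏ᶠ v, r v) *
        ((∏ᶠ v : nonarchAbsVal (K := K), Cn v.val) *
        (∏ᶠ v : nonarchAbsVal (K := K), mx z v.val) ^ d)) ≤
      (((archAbsVal (K := K)).map Ca).prod *
      ((archAbsVal (K := K)).map (mx z)).prod ^ d) * ((∏ v ∈ A, r v) *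
        ((∏ᶠ v : nonarchAbsVal (K := K), Cn v.val) *
        (∏ᶠ v : nonarchAbsVal (K := K), mx z v.val) ^ d)) :=
        mul_le_mul harch (mul_le_mul_of_nonneg_right hA hMfd) (mul_nonneg hR0 hMfd)
          (ha0.trans harch)
    _ = _ := by ring


theorem prod_pow_le {n : ℕ} (v : AbsoluteValue K ℝ) (z : Fin n → K) {d : ℕ} (e : Fin n →₀ ℕ)
    (he : ∀ j, e j ≤ d) : ∏ j, v (z j) ^ e j ≤ mx z v ^ d := by
  unfold mx
  rw [← Finset.prod_pow]
  exact Finset.prod_le_prod (fun j _ => pow_nonneg (v.nonneg _) _) fun j _ => pow_max_le v _ (he j)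

theorem term_eq {n : ℕ} (v : AbsoluteValue K ℝ) (z : Fin n → K) (c : K) (e : Fin n →₀ ℕ) :
    v (c * ∏ j, z j ^ e j) = v c * ∏ j, v (z j) ^ e j := by
  rw [map_mul, map_prod]
  simp only [map_pow]

theorem poly_arch' {n : ℕ} (v : AbsoluteValue K ℝ) (P : MvPolynomial (Fin n) K) {d : ℕ}
    (hd : ∀ j, P.degreeOf j ≤ d) (z : Fin n → K) : v (MvPolynomial.eval z P) ≤
      (∑ e ∈ P.support, v (P.coeff e)) * mx z v ^ d := by
  classical
  rw [MvPolynomial.eval_eq']
  have h1 : ∀ s : Finset (Fin n →₀ ℕ), v (∑ e ∈ s, P.coeff e * ∏ j, z j ^ e j) ≤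
      ∑ e ∈ s, v (P.coeff e * ∏ j, z j ^ e j) := by
    intro s
    induction s using Finset.induction_on with
    | empty => simp
    | insert a s ha ih =>
      rw [Finset.sum_insert ha, Finset.sum_insert ha]
      exact (v.add_le _ _).trans (by linarith)
  refine (h1 _).trans ?_
  rw [Finset.sum_mul]
  refine Finset.sum_le_sum fun e he => ?_
  rw [term_eq]
  exact mul_le_mul_of_nonneg_left (prod_pow_le v z e fun j =>
    (MvPolynomial.monomial_le_degreeOf j he).trans (hd j)) (v.nonneg _)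

theorem na_sum' {ι : Type} {v : AbsoluteValue K ℝ} (hv : IsNonarchimedean v) {f : ι → K} {B : ℝ}
    (hB : 0 ≤ B) (s : Finset ι) (h : ∀ i ∈ s, v (f i) ≤ B) : v (∑ i ∈ s, f i) ≤ B := by
  classical
  induction s using Finset.induction_on with
  | empty => simpa using hB
  | insert a s ha ih =>
    rw [Finset.sum_insert ha]
    exact (hv _ _).trans (max_le (h a (Finset.mem_insert_self _ _))
      (ih fun i hi => h i (Finset.mem_insert_of_mem hi)))

theorem poly_na' {n : ℕ} {v : AbsoluteValue K ℝ} (hv : IsNonarchimedean v)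
    (P : MvPolynomial (Fin n) K) {d : ℕ} (hd : ∀ j, P.degreeOf j ≤ d) (z : Fin n → K) :
    v (MvPolynomial.eval z P) ≤ (∏ e ∈ P.support, max (v (P.coeff e)) 1) * mx z v ^ d := by
  classical
  rw [MvPolynomial.eval_eq']
  have hP0 : 0 ≤ ∏ e ∈ P.support, max (v (P.coeff e)) 1 :=
    Finset.prod_nonneg fun i _ => zero_le_one.trans (le_max_right _ _)
  have hM0 : 0 ≤ mx z v ^ d := pow_nonneg (zero_le_one.trans (one_le_mx z v)) _
  refine na_sum' hv (mul_nonneg hP0 hM0) _ fun e he => ?_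
  rw [term_eq]
  refine mul_le_mul ?_ (prod_pow_le v z e fun j =>
    (MvPolynomial.monomial_le_degreeOf j he).trans (hd j))
    (Finset.prod_nonneg fun j _ => pow_nonneg (v.nonneg _) _) hP0
  refine (le_max_left _ 1).trans ?_
  rw [← Finset.mul_prod_erase _ _ he]
  refine le_mul_of_one_le_right (zero_le_one.trans (le_max_right _ _)) ?_
  have h1 : (1 : ℝ) = ∏ _j ∈ P.support.erase e, (1 : ℝ) := by
    rw [Finset.prod_const_one]
  exact h1.le.trans (Finset.prod_le_prod (fun _ _ => zero_le_one) fun j _ => le_max_right _ _)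

/-- a bad place -/
theorem bad_bd' {n : ℕ} {v : AbsoluteValue K ℝ} {p d : ℕ} (hu : ∀ u : K, v u < 1 → v u * p ≤ 1)
    {x : K} {z : Fin n → K} (h : v x < mx z v ^ d) : v x / mx z v ^ d * p ≤ 1 := by
  classical
  obtain ⟨m, hm, hmv⟩ : ∃ m : K, m ≠ 0 ∧ v m = mx z v := by
    refine ⟨∏ j, (if v (z j) ≤ 1 then 1 else z j), ?_, ?_⟩
    · refine Finset.prod_ne_zero_iff.2 fun j _ => ?_
      split_ifs with hj
      · exact one_ne_zero
      · intro h0
        rw [h0, map_zero] at hj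
        exact hj zero_le_one
    · rw [map_prod]
      unfold mx
      refine Finset.prod_congr rfl fun j _ => ?_
      split_ifs with hj
      · rw [map_one, max_eq_right hj]
      · rw [max_eq_left (not_le.1 hj).le]
  have h1 : v (x / m ^ d) = v x / mx z v ^ d := by rw [map_div₀, map_pow, hmv]
  rw [← h1]
  refine hu _ ?_
  rw [h1, div_lt_one (pow_pos (by linarith [one_le_mx z v]) _)]
  exact h

end

/-- **SEN** -/
theorem sen (hPLC : S_PLC) : S_SEN := by
  classical
  intro K _ _ nn P d hd S M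
  obtain ⟨p₀, hp₀⟩ := hPLC K (S ∪ P.support.image fun e => P.coeff e)
  -- the primes
  have hpr : ∀ i : ℕ, ∃ p : ℕ, p.Prime ∧ 2 ^ i < p ∧ p ≤ 2 * 2 ^ i := fun i =>
    Nat.exists_prime_lt_and_le_two_mul (2 ^ i) (by positivity)
  choose q hq1 hq2 hq3 using hpr
  have hpl : ∀ j : ℕ, ∃ v ∈ nonarchAbsVal (K := K), Gd v (q (p₀ + j)) ∧
      (∀ s ∈ S ∪ P.support.image (fun e => P.coeff e), s ≠ 0 → v s = 1) ∧
      (∀ u : K, v u < 1 → v u * q (p₀ + j) ≤ 1) ∧
      SmallRes v (q (p₀ + j)) (Module.finrank ℚ K) := by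
    intro j
    refine hp₀ _ (hq1 _) ?_
    calc p₀ < 2 ^ p₀ := Nat.lt_two_pow_self
      _ ≤ 2 ^ (p₀ + j) := Nat.pow_le_pow_right (by norm_num) (by omega)
      _ < q (p₀ + j) := hq2 _
  choose v hv hG hS hu hF using hpl
  have hqlt : ∀ i j : ℕ, i < j → q (p₀ + i) < q (p₀ + j) := by
    intro i j hij
    calc q (p₀ + i) ≤ 2 * 2 ^ (p₀ + i) := hq3 _
      _ = 2 ^ (p₀ + i + 1) := by rw [pow_succ]; ring
      _ ≤ 2 ^ (p₀ + j) := Nat.pow_le_pow_right (by norm_num) (by omega)
      _ < q (p₀ + j) := hq2 _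
  have hne : ∀ i j : ℕ, i < j → v i ≠ v j := by
    intro i j hij h
    have h1 := (hG i).lt
    have h2 := (hG j).unit (q (p₀ + i)) (hq1 _).one_lt.le (hqlt i j hij)
    rw [h, h2] at h1
    exact lt_irrefl _ h1
  have hinj : Function.Injective v := by
    intro i j h
    rcases lt_trichotomy i j with h1 | h1 | h1
    · exact absurd h (hne i j h1)
    · exact h1
    · exact absurd h.symm (hne j i h1)
  -- the constants
  obtain ⟨Ca, hCa⟩ : ∃ Ca : AbsoluteValue K ℝ → ℝ,
    Ca = fun v => ∑ i ∈ P.support, v (P.coeff i) := ⟨_, rfl⟩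
  obtain ⟨Cn, hCn⟩ : ∃ Cn : AbsoluteValue K ℝ → ℝ,
    Cn = fun v => ∏ i ∈ P.support, max (v (P.coeff i)) 1 := ⟨_, rfl⟩
  have hCn1 : ∀ v, 1 ≤ Cn v := by
    intro v
    rw [hCn]
    have h1 : (1 : ℝ) = ∏ _j ∈ P.support, (1 : ℝ) := by rw [Finset.prod_const_one]
    beta_reduce
    conv_lhs => rw [h1]
    exact Finset.prod_le_prod (fun _ _ => zero_le_one) fun j _ => le_max_right _ _
  have hCnf : (fun v : nonarchAbsVal (K := K) => Cn v.val).HasFiniteMulSupport := by
    have h1 : (⋃ i ∈ P.support, mulSupport fun v : nonarchAbsVal (K := K) =>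
        max (v.val (P.coeff i)) 1).Finite := by
      refine Set.Finite.biUnion (Finset.finite_toSet _) fun i _ => fin_m (P.coeff i)
    refine Set.Finite.subset h1 fun w hw => ?_
    by_contra hcon
    apply hw
    show Cn w.val = 1
    rw [hCn]
    refine Finset.prod_eq_one fun i hi => ?_
    by_contra h2
    exact hcon (Set.mem_iUnion₂.2 ⟨i, hi, h2⟩)
  have hCnv : ∀ j, Cn (v j) = 1 := by
    intro j
    rw [hCn]
    refine Finset.prod_eq_one fun i hi => ?_
    rcases eq_or_ne (P.coeff i) 0 with h0 | h0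
    · rw [h0, map_zero]
      exact max_eq_right zero_le_one
    · rw [hS j _ (Finset.mem_union_right _ (Finset.mem_image_of_mem _ hi)) h0, max_self]
  obtain ⟨C0, hC0⟩ : ∃ C0 : ℝ, C0 = |((archAbsVal (K := K)).map Ca).prod *
    (∏ᶠ v : nonarchAbsVal (K := K), Cn v.val)| + 1 := ⟨_, rfl⟩
  have hC01 : 1 ≤ C0 := by
    rw [hC0]
    linarith [abs_nonneg (((archAbsVal (K := K)).map Ca).prod *
      (∏ᶠ v : nonarchAbsVal (K := K), Cn v.val))]
  have hC0le : ((archAbsVal (K := K)).map Ca).prod *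
      (∏ᶠ v : nonarchAbsVal (K := K), Cn v.val) ≤ C0 := by
    rw [hC0]
    linarith [le_abs_self (((archAbsVal (K := K)).map Ca).prod *
      (∏ᶠ v : nonarchAbsVal (K := K), Cn v.val))]
  obtain ⟨n0, hn0⟩ : ∃ n0, n0 = Module.finrank ℚ K := ⟨_, rfl⟩
  obtain ⟨α, hα⟩ : ∃ α, α = M * (1 + 2 * n0 * (p₀ + 1)) := ⟨_, rfl⟩
  obtain ⟨β, hβ⟩ : ∃ β, β = 2 * M * n0 := ⟨_, rfl⟩
  obtain ⟨B, hB⟩ : ∃ B, B = (d + 1) * α + ((d + 1) * β + 1) ^ 2 := ⟨_, rfl⟩
  refine ⟨2 ^ B * C0, by positivity, fun z ht => ?_⟩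
  obtain ⟨Hz, hHz⟩ : ∃ Hz : ℝ, Hz = ∏ j, mulHeight₁ (z j) := ⟨_, rfl⟩
  have hH1 : 1 ≤ Hz := by
    rw [hHz]
    have h1 : (1 : ℝ) = ∏ _j : Fin nn, (1 : ℝ) := by rw [Finset.prod_const_one]
    conv_lhs => rw [h1]
    exact Finset.prod_le_prod (fun _ _ => zero_le_one) fun j _ => one_le_mulHeight₁ _
  -- all places with an index below `n` bad
  have hbad : ∀ n : ℕ, (∀ j, j < n → v j (MvPolynomial.eval z P) < mx z (v j) ^ d) →
      (2 : ℝ) ^ (∑ j ∈ Finset.range n, j) ≤ C0 * Hz ^ d := by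
    intro n hn
    have h1 := prod_bd z Ca Cn hCn1 hCnf d (MvPolynomial.eval z P) ht
      (fun v _ => by
        rw [hCa]
        exact poly_arch' v P hd z)
      (fun v hv => by
        rw [hCn]
        exact poly_na' (isNonarchimedean v hv) P hd z)
      ((Finset.range n).image fun j => (⟨v j, hv j⟩ : nonarchAbsVal (K := K)))
    rw [Finset.prod_image (fun i _ j _ h => hinj (congrArg Subtype.val h)), ← hHz] at h1
    have h2 : ∀ j ∈ Finset.range n, v j (MvPolynomial.eval z P) / (Cn (v j) * mx z (v j) ^ d) ≤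
        ((2 : ℝ) ^ j)⁻¹ := by
      intro j hj
      rw [hCnv, one_mul]
      have h3 := bad_bd' (hu j) (hn j (Finset.mem_range.1 hj))
      have h4 : (2 : ℝ) ^ j ≤ q (p₀ + j) := by
        have h5 : 2 ^ j ≤ q (p₀ + j) :=
          (Nat.pow_le_pow_right (by norm_num) (by omega)).trans (hq2 (p₀ + j)).le
        exact_mod_cast h5
      have h5 : 0 ≤ v j (MvPolynomial.eval z P) / mx z (v j) ^ d :=
        div_nonneg ((v j).nonneg _) (pow_nonneg (zero_le_one.trans (one_le_mx z _)) _)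
      rw [← one_div, le_div_iff₀ (by positivity)]
      exact (mul_le_mul_of_nonneg_left h4 h5).trans h3
    have h0 : ∀ j ∈ Finset.range n, 0 ≤ v j (MvPolynomial.eval z P) / (Cn (v j) * mx z (v j) ^ d) := by
      intro j _
      rw [hCnv, one_mul]
      exact div_nonneg ((v j).nonneg _) (pow_nonneg (zero_le_one.trans (one_le_mx z _)) _)
    have h3 : ∏ j ∈ Finset.range n, v j (MvPolynomial.eval z P) / (Cn (v j) * mx z (v j) ^ d) ≤
        ((2 : ℝ) ^ (∑ j ∈ Finset.range n, j))⁻¹ := by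
      refine (Finset.prod_le_prod h0 h2).trans (le_of_eq ?_)
      rw [Finset.prod_inv_distrib, Finset.prod_pow_eq_pow_sum]
    have h4 : 0 ≤ ∏ j ∈ Finset.range n, v j (MvPolynomial.eval z P) / (Cn (v j) * mx z (v j) ^ d) :=
      Finset.prod_nonneg h0
    have h5 : 0 ≤ Hz ^ d := pow_nonneg (by linarith) _
    have h6 : 1 ≤ C0 * Hz ^ d * ((2 : ℝ) ^ (∑ j ∈ Finset.range n, j))⁻¹ := by
      refine h1.trans ?_
      exact mul_le_mul (mul_le_mul_of_nonneg_right hC0le h5) h3 h4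
        (mul_nonneg (by linarith) h5)
    rwa [← div_eq_mul_inv, one_le_div (by positivity)] at h6
  -- there is a good place
  have hex : ∃ j : ℕ, ¬ v j (MvPolynomial.eval z P) < mx z (v j) ^ d := by
    by_contra hcon
    push Not at hcon
    obtain ⟨n, hn⟩ := pow_unbounded_of_one_lt (C0 * Hz ^ d)
      (by norm_num : (1 : ℝ) < 2)
    have h1 := hbad (n + 1) fun j _ => hcon j
    have h2 : n ≤ ∑ j ∈ Finset.range (n + 1), j := by
      rw [Finset.sum_range_succ]
      omega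
    have h3 : (2 : ℝ) ^ n ≤ 2 ^ (∑ j ∈ Finset.range (n + 1), j) :=
      pow_le_pow_right₀ (by norm_num) h2
    linarith
  obtain ⟨j, hj, hmin⟩ : ∃ j : ℕ, (¬ v j (MvPolynomial.eval z P) < mx z (v j) ^ d) ∧
      ∀ i, i < j → v i (MvPolynomial.eval z P) < mx z (v i) ^ d :=
    ⟨Nat.find hex, Nat.find_spec hex, fun i hi => not_not.1 (Nat.find_min hex hi)⟩
  have hkey := hbad j hmin
  refine ⟨v j, hv j, q (p₀ + j), hG j, fun s hs => hS j s (Finset.mem_union_left _ hs), ?_, ?_⟩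
  · have hmxj : ∏ l, max 1 (v j (z l)) ^ d = mx z (v j) ^ d := by
      unfold mx
      rw [← Finset.prod_pow]
      exact Finset.prod_congr rfl fun l _ => by rw [max_comm]
    rw [hmxj]
    refine le_antisymm ?_ (not_lt.1 hj)
    have h1 := poly_na' (isNonarchimedean (v j) (hv j)) P hd z
    have h2 : ∏ i ∈ P.support, max (v j (P.coeff i)) 1 = Cn (v j) := by rw [hCn]
    rw [h2, hCnv, one_mul] at h1
    exact h1
  · obtain ⟨F, iF, ρ, hcard, hρ⟩ := hF j
    refine ⟨F, iF, ρ, ?_, hρ⟩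
    have hc1 : Fintype.card F ≤ 2 ^ ((p₀ + j + 1) * n0) := by
      refine hcard.trans ?_
      rw [← hn0, pow_mul]
      refine Nat.pow_le_pow_left ?_ _
      calc q (p₀ + j) ≤ 2 * 2 ^ (p₀ + j) := hq3 _
        _ = 2 ^ (p₀ + j + 1) := by rw [pow_succ]; ring
    have hc2 : Fintype.card F ^ 2 + 1 ≤ 2 ^ (1 + 2 * ((p₀ + j + 1) * n0)) := by
      have h1 : Fintype.card F ^ 2 ≤ (2 ^ ((p₀ + j + 1) * n0)) ^ 2 := Nat.pow_le_pow_left hc1 2
      have h2 : 1 ≤ (2 ^ ((p₀ + j + 1) * n0)) ^ 2 := Nat.one_le_pow _ _ (by positivity)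
      have h3 : 2 ^ (1 + 2 * ((p₀ + j + 1) * n0)) = 2 * (2 ^ ((p₀ + j + 1) * n0)) ^ 2 := by
        rw [pow_add, pow_one, ← pow_mul, mul_comm 2 ((p₀ + j + 1) * n0)]
      rw [h3]
      omega
    have hc3 : (((Fintype.card F ^ 2 + 1 : ℕ) : ℝ)) ^ M ≤ 2 ^ (α + β * j) := by
      have h1 : (((Fintype.card F ^ 2 + 1 : ℕ) : ℝ)) ≤ 2 ^ (1 + 2 * ((p₀ + j + 1) * n0)) := by
        exact_mod_cast hc2
      refine (pow_le_pow_left₀ (by positivity) h1 M).trans (le_of_eq ?_)
      rw [← pow_mul]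
      congr 1
      rw [hα, hβ]
      ring
    refine hc3.trans ?_
    rw [← hHz]
    have hpos : 0 ≤ 2 ^ B * C0 * Hz := mul_nonneg (mul_nonneg (by positivity) (by linarith)) (by linarith)
    refine (pow_le_pow_iff_left₀ (by positivity) hpos (Nat.succ_ne_zero d)).1 ?_
    have h1 : (d + 1) * (α + β * j) ≤ (∑ i ∈ Finset.range j, i) + B := by
      have h2 := growth ((d + 1) * β) j
      rw [hB]
      nlinarith [h2]
    have h2 : ((2 : ℝ) ^ (α + β * j)) ^ (d + 1) ≤ 2 ^ B * 2 ^ (∑ i ∈ Finset.range j, i) := by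
      rw [← pow_mul, ← pow_add]
      refine pow_le_pow_right₀ (by norm_num) ?_
      rw [mul_comm (α + β * j), add_comm B]
      exact h1
    have h3 : Hz ^ d ≤ Hz ^ (d + 1) := pow_le_pow_right₀ hH1 (Nat.le_succ d)
    have h4 : (2 : ℝ) ^ B * C0 ≤ (2 ^ B * C0) ^ (d + 1) := by
      have h5 : 1 ≤ (2 : ℝ) ^ B * C0 := by
        have h6 : (1 : ℝ) ≤ 2 ^ B := one_le_pow₀ (by norm_num)
        nlinarith
      exact le_self_pow₀ h5 (Nat.succ_ne_zero d)
    have h7 : 0 ≤ Hz ^ (d + 1) := pow_nonneg (by linarith) _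
    calc ((2 : ℝ) ^ (α + β * j)) ^ (d + 1) ≤ 2 ^ B * 2 ^ (∑ i ∈ Finset.range j, i) := h2
      _ ≤ 2 ^ B * (C0 * Hz ^ d) := mul_le_mul_of_nonneg_left hkey (by positivity)
      _ ≤ 2 ^ B * (C0 * Hz ^ (d + 1)) :=
          mul_le_mul_of_nonneg_left (mul_le_mul_of_nonneg_left h3 (by linarith)) (by positivity)
      _ = (2 ^ B * C0) * Hz ^ (d + 1) := by ring
      _ ≤ (2 ^ B * C0) ^ (d + 1) * Hz ^ (d + 1) := mul_le_mul_of_nonneg_right h4 h7
      _ = (2 ^ B * C0 * Hz) ^ (d + 1) := (mul_pow _ _ _).symm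

end Pool.Agent.Q192.TT
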